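import Pool.Agent.L0h34.CW.Basics

/-! CW/EXP: the stage for an expansive component. -/

set_option autoImplicit false

namespace Pool.Agent.L0h34.CW

theorem exp (hexc : S_EXC) (hret : S_RET) : S_EXP := by
  intro A G _ hG f N U hNU M D κ hD Δ hΔ hinf
  obtain ⟨Δa, hFa, hGa, Ka, hKa⟩ := hexc A G hG f U D hD Δ hΔ
  have hinfa : (Gp f Δa : Set G).Infinite := by
    rw [hGa]
    exact hinf
  obtain ⟨Δ', hF', hinf', -, ρm, hρm⟩ := hret A G hG f N U hNU M (fun ρ => 2 * (ρ + κ + 1)) Δa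
    hFa.1 hinfa
  refine ⟨Δ', hF'.trans hFa, hinf', max Ka (2 * (ρm + κ + 1)), ?_⟩
  intro x b y hst hN hDb hl
  by_cases hU : FinOrb U (Gp f Δ) (ev f x)⁻¹
  · obtain ⟨ρ, hρ, hinj⟩ := hρm x b y hst (by rw [hGa]; exact hU) hN
    by_contra hc
    push Not at hc
    have h1 : 2 * (ρm + κ + 1) < b.length := lt_of_le_of_lt (le_max_right _ _) hc
    obtain ⟨i, j, hij, hj2, hjb, m, hm, hmem⟩ := hl (ρ + κ + 1) (by omega) (by omega)
    exact hinj i j (by omega) (by simpa using hj2) hjb m hm hmem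
  · exact (hKa x b y (Star.of_fine hF' hst) hU hDb).trans (le_max_left _ _)

end Pool.Agent.L0h34.CW
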