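import Pool.Agent.L0h34.CW.Basics

/-! CW/FIX: a subgroup of finite index which fixes the finite orbits. -/

set_option autoImplicit false

namespace Pool.Agent.L0h34.CW

theorem Gp_fg {A G : Type} [Group G] (f : A → G) (Δ : Finset (List A)) : Group.FG (Gp f Δ) := by
  rw [Group.fg_iff_subgroup_fg, Subgroup.fg_iff]
  refine ⟨{g | ∃ d ∈ Δ, g = ev f d}, rfl, ?_⟩
  refine (Δ.finite_toSet.image (ev f)).subset ?_
  rintro g ⟨d, hd, rfl⟩
  exact ⟨d, hd, rfl⟩

/-- a finitely generated subgroup of `Gp f Δ` is some `Gp f Δ₁` -/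
theorem exists_fine {A G : Type} [Group G] (hG : Tors G) (f : A → G) (Δ : Finset (List A))
    (J : Subgroup G) (hJ : J.FG) (hle : J ≤ Gp f Δ) : ∃ Δ₁, Fine Δ₁ Δ ∧ Gp f Δ₁ = J := by
  classical
  obtain ⟨S, hS, hfin⟩ := (Subgroup.fg_iff J).1 hJ
  have hw : ∀ s : G, ∃ w : List A, s ∈ S → (Star Δ w ∧ ev f w = s) := by
    intro s
    by_cases hs : s ∈ S
    · have h1 : s ∈ Gp f Δ := hle (by rw [← hS]; exact Subgroup.subset_closure hs)
      obtain ⟨w, hw⟩ := exists_word hG h1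
      exact ⟨w, fun _ => hw⟩
    · exact ⟨[], fun h => absurd h hs⟩
  choose w hw using hw
  refine ⟨(hfin.toFinset.image w).filter (fun v => v ≠ []), ⟨fun d hd => (Finset.mem_filter.1 hd).2,
    ?_⟩, ?_⟩
  · intro d hd
    obtain ⟨s, hs, rfl⟩ := Finset.mem_image.1 (Finset.mem_filter.1 hd).1
    exact (hw s (hfin.mem_toFinset.1 hs)).1
  · rw [← hS]
    unfold Gp
    apply le_antisymm
    · refine (Subgroup.closure_le _).2 ?_
      rintro g ⟨d, hd, rfl⟩
      obtain ⟨s, hs, rfl⟩ := Finset.mem_image.1 (Finset.mem_filter.1 hd).1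
      rw [(hw s (hfin.mem_toFinset.1 hs)).2]
      exact Subgroup.subset_closure (hfin.mem_toFinset.1 hs)
    · refine (Subgroup.closure_le _).2 ?_
      intro s hs
      by_cases h0 : w s = []
      · have h1 := (hw s hs).2
        rw [h0, ev_nil] at h1
        rw [← h1]
        exact Subgroup.one_mem _
      · refine Subgroup.subset_closure ⟨w s, ?_, (hw s hs).2.symm⟩
        exact Finset.mem_filter.2 ⟨Finset.mem_image.2 ⟨s, hfin.mem_toFinset.2 hs, rfl⟩, h0⟩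

theorem fix : S_FIX := by
  classical
  intro A G _ hG f U Δ hΔ
  set H := Gp f Δ with hH
  obtain ⟨P, hP⟩ := exists_prefixes Δ
  let Y : List A → Subgroup G := fun p => U.map (MulAut.conj ((ev f p)⁻¹)⁻¹).toMonoidHom
  let ι := {p : List A // p ∈ P ∧ FinOrb U H (ev f p)⁻¹}
  have hfinι : Finite ι := Finite.of_injective
    (fun q : ι => (⟨q.1, q.2.1⟩ : {p // p ∈ P})) (by
      intro a b hab
      exact Subtype.ext (Subtype.mk.inj hab))
  let J : Subgroup H := ⨅ q : ι, ((Y q.1).subgroupOf H).normalCore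
  have hJfin : J.FiniteIndex := by
    refine Subgroup.finiteIndex_iInf fun q => ?_
    have h1 : ((Y q.1).subgroupOf H).FiniteIndex := by
      rw [Subgroup.finiteIndex_iff]
      exact finOrb_iff.1 q.2.2
    infer_instance
  have hfg : Group.FG H := Gp_fg f Δ
  have hJfg : Group.FG J := Subgroup.fg_of_index_ne_zero J
  have hJfg' : (J.map H.subtype).FG := by
    obtain ⟨S, hS, hSf⟩ := (Subgroup.fg_iff J).1 ((Group.fg_iff_subgroup_fg J).1 hJfg)
    refine (Subgroup.fg_iff _).2 ⟨H.subtype '' S, ?_, hSf.image _⟩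
    rw [← MonoidHom.map_closure, hS]
  obtain ⟨Δ₁, hF, hGp⟩ := exists_fine hG f Δ (J.map H.subtype) hJfg' (by
    rintro _ ⟨x, _, rfl⟩
    exact x.2)
  refine ⟨Δ₁, hF, ?_, ?_⟩
  · intro hinf hfin
    apply hinf
    rw [hGp] at hfin
    have h1 : Finite (J.map H.subtype) := hfin
    have h2 : Finite J := by
      refine Finite.of_injective (fun x : J => (⟨(x : H), x, x.2, rfl⟩ : J.map H.subtype)) ?_
      intro a b hab
      exact Subtype.ext (Subtype.ext (Subtype.mk.inj hab))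
    have h3 : Finite (H ⧸ J) := inferInstance
    have h4 : Finite H := Finite.of_subgroup_quotient J
    exact h4
  · intro x y hst hfo k hk h hh
    obtain ⟨p, hp, -, x₁, hx₁, rfl⟩ := hP x y hst
    have hx₁' : ev f x₁ ∈ H := hx₁.mem_Gp
    rw [ev_append, mul_inv_rev] at hfo ⊢
    have hfo' : FinOrb U H (ev f p)⁻¹ := (finOrb_mul (H.inv_mem hx₁')).1 hfo
    rw [hGp] at hh
    obtain ⟨j, hj, rfl⟩ := hh
    have h1 : j ∈ ((Y p).subgroupOf H).normalCore := (Subgroup.mem_iInf.1 hj) ⟨p, hp, hfo'⟩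
    have h2 : (⟨(ev f x₁)⁻¹ * k, H.mul_mem (H.inv_mem hx₁') hk⟩ : H) * j *
        (⟨(ev f x₁)⁻¹ * k, H.mul_mem (H.inv_mem hx₁') hk⟩ : H)⁻¹ ∈ (Y p).subgroupOf H := h1 _
    rw [Subgroup.mem_subgroupOf] at h2
    obtain ⟨u, hu, hu'⟩ := Subgroup.mem_map.1 h2
    have h3 : u = ((ev f p)⁻¹ * (ev f x₁)⁻¹ * k) * (j : G) * ((ev f p)⁻¹ * (ev f x₁)⁻¹ * k)⁻¹ := by
      have h4 : ev f p * u * (ev f p)⁻¹ = (ev f x₁)⁻¹ * k * (j : G) * ((ev f x₁)⁻¹ * k)⁻¹ := by
        simpa using hu'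
      have h5 : u = (ev f p)⁻¹ * (ev f p * u * (ev f p)⁻¹) * ev f p := by group
      rw [h5, h4]
      group
    change ((ev f p)⁻¹ * (ev f x₁)⁻¹ * k) * (j : G) * ((ev f p)⁻¹ * (ev f x₁)⁻¹ * k)⁻¹ ∈ U
    rw [← h3]
    exact hu

end Pool.Agent.L0h34.CW
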