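import Pool.Agent.L0h34.CW.Basics

/-! CW/LING: chains in linear components. -/

set_option autoImplicit false

namespace Pool.Agent.L0h34.CW

/-- a sequence with a new first member -/
def cns (a : ℕ) (s : ℕ → ℕ) : ℕ → ℕ
  | 0 => a
  | i + 1 => s i

section
variable {A G : Type} [Group G]

/-- `IsChain`, starting with the factor `[P, Q)` -/
def Ch (𝓗 : Subgroup (G × Gᵐᵒᵖ)) (c κ : ℕ) (r : ℕ → G × G) (f : A → G) (b : List A)
    (P Q : ℕ) (n : ℕ) (t p q : ℕ → ℕ) : Prop :=
  p 0 = P ∧ q 0 = Q ∧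
  (∀ i < n, p i ≤ p (i + 1) ∧ p (i + 1) ≤ p i + κ ∧ q (i + 1) ≤ q i ∧ q i ≤ q (i + 1) + κ) ∧
  (∀ i ≤ n, p i ≤ q i) ∧ q n ≤ p n + κ ∧ (∀ i ≤ n, t i < c) ∧
  ∀ i ≤ n, (ev f (b.take (p i)) * (r (t i)).1⁻¹,
    MulOpposite.op ((r (t i)).2⁻¹ * ev f (b.drop (q i)))) ∈ 𝓗

theorem Ch.prepend {𝓗 : Subgroup (G × Gᵐᵒᵖ)} {c κ : ℕ} {r : ℕ → G × G} {f : A → G} {b : List A}
    {P Q n : ℕ} {t p q : ℕ → ℕ} (h : Ch 𝓗 c κ r f b P Q n t p q) (P' Q' t' : ℕ) (h1 : P' ≤ P)
    (h2 : P ≤ P' + κ) (h3 : Q ≤ Q') (h4 : Q' ≤ Q + κ) (h5 : P' ≤ Q') (h6 : t' < c)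
    (h7 : (ev f (b.take P') * (r t').1⁻¹,
      MulOpposite.op ((r t').2⁻¹ * ev f (b.drop Q'))) ∈ 𝓗) :
    Ch 𝓗 c κ r f b P' Q' (n + 1) (cns t' t) (cns P' p) (cns Q' q) := by
  obtain ⟨a1, a2, a3, a4, a5, a6, a7⟩ := h
  refine ⟨rfl, rfl, ?_, ?_, a5, ?_, ?_⟩
  · intro i hi
    cases i with
    | zero =>
      change P' ≤ p 0 ∧ p 0 ≤ P' + κ ∧ q 0 ≤ Q' ∧ Q' ≤ q 0 + κ
      rw [a1, a2]
      exact ⟨h1, h2, h3, h4⟩
    | succ i => exact a3 i (by omega)
  · intro i hi
    cases i with
    | zero => exact h5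
    | succ i => exact a4 i (by omega)
  · intro i hi
    cases i with
    | zero => exact h6
    | succ i => exact a6 i (by omega)
  · intro i hi
    cases i with
    | zero => exact h7
    | succ i => exact a7 i (by omega)

theorem ling_aux (hrel : S_REL) (hG : Tors G) (g : BG A) (f : A → G) (B : g.N) (K : ℕ)
    (hB : ¬ Expv g B) (c : ℕ) (code : g.N → ℕ) (hc : ∀ C, code C < c) (r : ℕ → G × G)
    (hr : ∀ C, (∃ u v, Lk g B C u v) → ∃ u v, Lk g B C u v ∧ r (code C) = (ev f u, ev f v))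
    (Δ : Finset (List A)) (H : Subgroup G) (hlow : LowK g f Δ H B K) (x y b : List A)
    (hst : Star Δ (x ++ b ++ y)) {C : g.N} {z : G} {b' : List A} (htd : TD g f H C z b') :
    ∀ u v : List A, z = ev f (x ++ u) → Lk g B C u v → Rch g C B → b = u ++ b' ++ v →
      ∃ n t p q, Ch (HB g f B) c (2 * K + 1) r f b u.length (u.length + b'.length) n t p q := by
  have hrel' := hrel A G hG g f
  -- the relation
  have relat : ∀ (C : g.N) (u v b' : List A), Lk g B C u v → Rch g C B → b = u ++ b' ++ v →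
      (ev f (b.take u.length) * (r (code C)).1⁻¹,
        MulOpposite.op ((r (code C)).2⁻¹ * ev f (b.drop (u.length + b'.length)))) ∈ HB g f B := by
    intro C u v b' hlk hrch hb
    obtain ⟨u', v', hlk', hr'⟩ := hr C ⟨u, v, hlk⟩
    have h1 := hrel'.2 B C u v u' v' hrch hlk hlk'
    have e1 : b.take u.length = u := by rw [hb, List.append_assoc, List.take_left]
    have e2 : b.drop (u.length + b'.length) = v := by
      rw [hb, ← List.length_append, List.drop_left]
    rw [hr', e1, e2]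
    exact h1
  have stop : ∀ (C : g.N) (u v b' : List A), Lk g B C u v → Rch g C B → b = u ++ b' ++ v →
      b'.length ≤ 2 * K + 1 →
      ∃ n t p q, Ch (HB g f B) c (2 * K + 1) r f b u.length (u.length + b'.length) n t p q := by
    intro C u v b' hlk hrch hb hlen
    refine ⟨0, fun _ => code C, fun _ => u.length, fun _ => u.length + b'.length, rfl, rfl,
      fun i hi => absurd hi (Nat.not_lt_zero i), fun i _ => Nat.le_add_right _ _, ?_,
      fun i _ => hc C, fun i _ => relat C u v b' hlk hrch hb⟩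
    change u.length + b'.length ≤ u.length + (2 * K + 1)
    omega
  induction htd with
  | @term C z w hterm hthin =>
    intro u v hz hlk hrch hb
    exact stop C u v w hlk hrch hb (by have := g.short C w hterm; omega)
  | @pair C D E z u₁ u₂ hp hD hE hthin ihD ihE =>
    intro u v hz hlk hrch hb
    have hBC : Rch g B C := ⟨u, v, hlk⟩
    have lkD : Lk g B D u (u₂ ++ v) := by
      have := hlk.trans (Lk.left hp (Lk.refl D) hE.dv)
      simpa using this
    have lkE : Lk g B E (u ++ u₁) v := by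
      have := hlk.trans (Lk.right hp hD.dv (Lk.refl E))
      simpa using this
    have hbD : b = u ++ u₁ ++ (u₂ ++ v) := by rw [hb]; simp
    have hbE : b = (u ++ u₁) ++ u₂ ++ v := by rw [hb]; simp
    have lenD : ¬ Rch g D B → u₁.length ≤ K := by
      intro h
      refine hlow D ⟨_, _, lkD⟩ h (x ++ u) u₁ (u₂ ++ v ++ y) ?_ (hz ▸ hD)
      have : x ++ u ++ u₁ ++ (u₂ ++ v ++ y) = x ++ b ++ y := by rw [hb]; simp
      rw [this]
      exact hst
    have lenE : ¬ Rch g E B → u₂.length ≤ K := by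
      intro h
      refine hlow E ⟨_, _, lkE⟩ h (x ++ u ++ u₁) u₂ (v ++ y) ?_ ?_
      · have : x ++ u ++ u₁ ++ u₂ ++ (v ++ y) = x ++ b ++ y := by rw [hb]; simp
        rw [this]
        exact hst
      · rw [ev_append, ← hz]
        exact hE
    have rel0 := relat C u v (u₁ ++ u₂) hlk hrch hb
    by_cases hDB : Rch g D B
    · have hEB : ¬ Rch g E B := fun h => hB ⟨C, D, E, hp, hBC, hDB, h⟩
      have hl := lenE hEB
      obtain ⟨n, t, p, q, hch⟩ := ihD u (u₂ ++ v) hz lkD hDB hbD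
      refine ⟨n + 1, _, _, _, hch.prepend u.length (u.length + (u₁ ++ u₂).length) (code C)
        le_rfl (by omega) ?_ ?_ (by omega) (hc C) rel0⟩
      · rw [List.length_append]
        omega
      · rw [List.length_append]
        omega
    · have hl1 := lenD hDB
      by_cases hEB : Rch g E B
      · obtain ⟨n, t, p, q, hch⟩ := ihE (u ++ u₁) v (by
          rw [← List.append_assoc, ev_append (x ++ u), ← hz]) lkE hEB hbE
        rw [List.length_append] at hch
        refine ⟨n + 1, _, _, _, hch.prepend u.length (u.length + (u₁ ++ u₂).length) (code C)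
          (by omega) (by omega) ?_ ?_ (by omega) (hc C) rel0⟩
        · rw [List.length_append]
          omega
        · rw [List.length_append]
          omega
      · have hl2 := lenE hEB
        exact stop C u v (u₁ ++ u₂) hlk hrch hb (by rw [List.length_append]; omega)

end

theorem ling (hrel : S_REL) : S_LING := by
  classical
  intro A G _ hG g f B K hB
  have := g.fin
  let e := Finite.equivFin g.N
  have hch : ∀ C : g.N, ∃ w : List A × List A, (∃ u v, Lk g B C u v) → Lk g B C w.1 w.2 := by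
    intro C
    by_cases h : ∃ u v, Lk g B C u v
    · obtain ⟨u, v, h'⟩ := h
      exact ⟨(u, v), fun _ => h'⟩
    · exact ⟨([], []), fun h' => absurd h' h⟩
  choose w hw using hch
  let r : ℕ → G × G := fun k => if h : k < Nat.card g.N then
    (ev f (w (e.symm ⟨k, h⟩)).1, ev f (w (e.symm ⟨k, h⟩)).2) else (1, 1)
  refine ⟨Nat.card g.N, 2 * K + 1, r, ?_⟩
  intro Δ H hlow x b y hst htd
  obtain ⟨n, t, p, q, h⟩ := ling_aux hrel hG g f B K hB (Nat.card g.N) (fun C => (e C : ℕ))
    (fun C => (e C).2) r (by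
      intro C hC
      refine ⟨(w C).1, (w C).2, hw C hC, ?_⟩
      simp only [r]
      rw [dif_pos (e C).2]
      simp) Δ H hlow x y b hst htd [] [] (by simp) (Lk.refl B) (Rch.refl B) (by simp)
  refine ⟨n, t, p, q, ?_⟩
  obtain ⟨a1, a2, a3⟩ := h
  exact ⟨a1, by simpa using a2, a3⟩

end Pool.Agent.L0h34.CW
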