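import Pool.Agent.L0h34.CW.Basics

/-! CW/LIP: no stalling on both sides gives comparable speeds. -/

set_option autoImplicit false

namespace Pool.Agent.L0h34.CW

theorem lip_aux (n κ Λ : ℕ) (p p' : ℕ → ℕ)
    (h : ∀ i < n, p i ≤ p (i + 1) ∧ p (i + 1) ≤ p i + κ ∧ p' i ≤ p' (i + 1) ∧ p' (i + 1) ≤ p' i + κ)
    (h1 : ∀ i j, i ≤ j → j ≤ n → p' j ≤ p' i + κ → p j < p i + Λ) :
    ∀ d i j, j - i ≤ d → i ≤ j → j ≤ n → p j ≤ p i + (Λ + κ) * (p' j - p' i) + (Λ + κ) := by
  classical
  have hm' : ∀ a b, a ≤ b → b ≤ n → p' a ≤ p' b := by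
    intro a b hab
    induction b, hab using Nat.le_induction with
    | base => intro _; exact le_rfl
    | succ b hab ih => intro hb; exact (ih (by omega)).trans (h b (by omega)).2.2.1
  intro d
  induction d with
  | zero =>
    intro i j hd hij hj
    have : i = j := by omega
    subst this
    omega
  | succ d ih =>
    intro i j hd hij hj
    by_cases hc : p' j ≤ p' i + κ
    · have := h1 i j hij hj hc
      have h2 : 0 ≤ (Λ + κ) * (p' j - p' i) := Nat.zero_le _
      omega
    · push Not at hc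
      have hex : ∃ m, i ≤ m ∧ p' i + κ < p' m := ⟨j, hij, hc⟩
      obtain ⟨ha1, ha2⟩ := Nat.find_spec hex
      have hle : Nat.find hex ≤ j := Nat.find_min' hex ⟨hij, hc⟩
      have hne : Nat.find hex ≠ i := by
        intro h0
        rw [h0] at ha2
        omega
      obtain ⟨m, hm⟩ : ∃ m, Nat.find hex = m + 1 := ⟨Nat.find hex - 1, by omega⟩
      have h2 := Nat.find_min hex (m := m) (by omega)
      rw [hm] at ha1 ha2 hle hne
      have h3 : p' m ≤ p' i + κ := by
        by_contra h4
        exact h2 ⟨by omega, by omega⟩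
      have h4 := h1 i m (by omega) (by omega) h3
      have h5 := h m (by omega)
      have h6 := ih (m + 1) j (by omega) hle hj
      have h7 := hm' (m + 1) j hle hj
      obtain ⟨e, he⟩ : ∃ e, p' j - p' i = (p' j - p' (m + 1)) + 1 + e :=
        ⟨p' j - p' i - ((p' j - p' (m + 1)) + 1), by omega⟩
      rw [he, Nat.mul_add, Nat.mul_add, mul_one]
      omega

theorem lip : S_LIP := by
  intro n κ Λ p p' h h1 h2 i j hij hj
  have a := lip_aux n κ Λ p p' h h1 (j - i) i j le_rfl hij hj
  have b := lip_aux n κ Λ p' p (fun i hi => ⟨(h i hi).2.2.1, (h i hi).2.2.2, (h i hi).1, (h i hi).2.1⟩)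
    h2 (j - i) i j le_rfl hij hj
  constructor
  · omega
  · omega

end Pool.Agent.L0h34.CW
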