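import Pool.Agent.L0h34.CW.Basics

/-! CW/NS: no stalling. -/

set_option autoImplicit false

namespace Pool.Agent.L0h34.CW

/-- monotone up to `n` -/
theorem mono_of_step {n : ℕ} {p : ℕ → ℕ} (h : ∀ i < n, p i ≤ p (i + 1)) :
    ∀ a b, a ≤ b → b ≤ n → p a ≤ p b := by
  intro a b hab
  induction b, hab using Nat.le_induction with
  | base => intro _; exact le_rfl
  | succ b hab ih => intro hb; exact (ih (by omega)).trans (h b (by omega))

/-- the first index where `p` reaches `P` -/
theorem first_index {n κ : ℕ} {p : ℕ → ℕ} (h : ∀ i < n, p (i + 1) ≤ p i + κ) (i j P : ℕ)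
    (hij : i ≤ j) (hj : j ≤ n) (hi : p i ≤ P + κ) (hP : P ≤ p j) :
    ∃ m, i ≤ m ∧ m ≤ j ∧ P ≤ p m ∧ p m ≤ P + κ := by
  classical
  have hex : ∃ m, i ≤ m ∧ P ≤ p m := ⟨j, hij, hP⟩
  have hf := Nat.find_spec hex
  have hle : Nat.find hex ≤ j := Nat.find_min' hex ⟨hij, hP⟩
  refine ⟨Nat.find hex, hf.1, hle, hf.2, ?_⟩
  rcases hf.1.eq_or_lt with h0 | h0
  · rw [← h0]
    exact hi
  · obtain ⟨m, hm⟩ : ∃ m, Nat.find hex = m + 1 := ⟨Nat.find hex - 1, by omega⟩
    have h1 := Nat.find_min hex (m := m) (by omega)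
    rw [hm] at h0 hle ⊢
    have h2 : p m < P := by
      by_contra hc
      exact h1 ⟨by omega, by omega⟩
    have h3 := h m (by omega)
    omega

theorem ns : S_NS := by
  intro α β cl cl' n c κ X ρ t p p' h1 h2 h3 h4 i j hij hj hX
  by_contra hc
  push Not at hc
  set D := ρ + κ + 1 with hD
  have hmono := mono_of_step (p := p) fun i hi => (h1 i hi).1
  have hmono' := mono_of_step (p := p') fun i hi => (h1 i hi).2.2
  have key : ∀ k : ℕ, ∃ m, k ≤ c * (X + 1) →
      (i ≤ m ∧ m ≤ j ∧ p i + k * D ≤ p m ∧ p m ≤ p i + k * D + κ) := by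
    intro k
    by_cases hk : k ≤ c * (X + 1)
    · have hkD : k * D ≤ D * (c * (X + 1) + 1) := by
        rw [mul_comm D]
        exact Nat.mul_le_mul_right _ (by omega)
      obtain ⟨m, hm⟩ := first_index (fun i hi => (h1 i hi).2.1) i j (p i + k * D) hij hj
        (by omega) (by omega)
      exact ⟨m, fun _ => hm⟩
    · exact ⟨0, fun h => absurd h hk⟩
  choose idx hidx using key
  obtain ⟨k, hk, l, hl, hkl, he⟩ := Finset.exists_ne_map_eq_of_card_lt_of_maps_to
    (s := Finset.range (c * (X + 1) + 1)) (t := Finset.range c ×ˢ Finset.range (X + 1))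
    (f := fun k => (t (idx k), p' (idx k) - p' i)) (by simp) (by
      intro k hk
      have hk' : k ≤ c * (X + 1) := by
        have := Finset.mem_range.1 hk
        omega
      obtain ⟨a1, a2, a3, a4⟩ := hidx k hk'
      have b1 := h2 (idx k) (by omega)
      have b2 := hmono' (idx k) j a2 hj
      have b3 : p' (idx k) - p' i < X + 1 := by omega
      exact Finset.mem_coe.2 (Finset.mem_product.2 ⟨Finset.mem_range.2 b1, Finset.mem_range.2 b3⟩))
  have main : ∀ k l, k < l → l ≤ c * (X + 1) → t (idx k) = t (idx l) →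
      p' (idx k) - p' i = p' (idx l) - p' i → False := by
    intro k l hkl hl e1 e2
    obtain ⟨a1, a2, a3, a4⟩ := hidx k (by omega)
    obtain ⟨b1, b2, b3, b4⟩ := hidx l hl
    have c1 := hmono' i (idx k) a1 (by omega)
    have c2 := hmono' i (idx l) b1 (by omega)
    have e3 : p' (idx k) = p' (idx l) := by omega
    have e4 := h3 (idx k) (idx l) (by omega) (by omega) e1 (by rw [e3])
    have hlD : (k + 1) * D ≤ l * D := Nat.mul_le_mul_right _ (by omega)
    have hlD2 : l * D ≤ (c * (X + 1)) * D := Nat.mul_le_mul_right _ hl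
    have e5 : (k + 1) * D = k * D + D := by ring
    have e6 : D * (c * (X + 1) + 1) = (c * (X + 1)) * D + D := by ring
    refine h4 (p (idx k)) (p (idx l)) ?_ ?_ (hmono _ n (by omega) le_rfl) e4
    · omega
    · rw [e6]
      omega
  have hk' := Finset.mem_range.1 hk
  have hl' := Finset.mem_range.1 hl
  have e1 := congrArg Prod.fst he
  have e2 := congrArg Prod.snd he
  rcases lt_or_gt_of_ne hkl with h | h
  · exact main k l h (by omega) e1 e2
  · exact main l k h (by omega) e1.symm e2.symm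

end Pool.Agent.L0h34.CW
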